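import Pool.Agent.BSheet.L_result

namespace Pool.Agent.Results.MP_e5cfa3_pr.SmallBall

open MeasureTheory ProbabilityTheory

/-- `B` is a Brownian sheet on `[0,1]^d` on the probability space `(Ω, P)`: a centred Gaussian
process indexed by `[0,1]^d` with covariance `∏ min (x i) (y i)` and almost surely continuous
sample paths. -/
structure IsBrownianSheet {Ω : Type*} {mΩ : MeasurableSpace Ω} (d : ℕ)
    (B : (Fin d → unitInterval) → Ω → ℝ) (P : Measure Ω) : Prop where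
  gaussian : IsGaussianProcess B P
  mean : ∀ x, ∫ ω, B x ω ∂P = 0
  covar : ∀ x y, cov[B x, B y; P] = ∏ i, min (x i : ℝ) (y i : ℝ)
  continuous : ∀ᵐ ω ∂P, Continuous (fun x => B x ω)

/-- For every `d ≥ 3` there is `c > 0`, depending only on `d`, such that for every Brownian sheet
on `[0,1]^d` and every `0 < ε < 1/2`,
`P (sup |B| ≤ ε) ≤ exp (- c ε⁻² (log (1/ε))^(2d-1))`. -/
theorem result (d : ℕ) (hd : 3 ≤ d) : ∃ c : ℝ, 0 < c ∧
    ∀ {Ω : Type*} {mΩ : MeasurableSpace Ω} (P : Measure Ω) (B : (Fin d → unitInterval) → Ω → ℝ),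
      IsBrownianSheet d B P → ∀ ε : ℝ, 0 < ε → ε < 1/2 →
        P {ω | ∀ x, |B x ω| ≤ ε}
          ≤ ENNReal.ofReal (Real.exp (-c * (ε^2)⁻¹ * (Real.log (1/ε))^(2*d-1))) := by
  obtain ⟨c, hc, h⟩ := BSheet.small_ball d hd
  refine ⟨c, hc, ?_⟩
  intro Ω mΩ P B hB ε h0 h1
  exact h P B ⟨hB.gaussian, hB.mean, hB.covar, hB.continuous⟩ ε h0 h1

end Pool.Agent.Results.MP_e5cfa3_pr.SmallBall
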